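import Mathlib
import Pool.Agent.H.MP_6bd103.B
import Pool.Agent.Lib.helper24.Succ

set_option autoImplicit false

open Set Topology Filter

namespace Pool.Agent.Results.MP_6bd103_gt.Closed

/-- every open cover has a locally countable open refinement -/
def ParaL (X : Type) [TopologicalSpace X] : Prop :=
  ∀ 𝒰 : Set (Set X), (∀ U ∈ 𝒰, IsOpen U) → ⋃₀ 𝒰 = univ →
    ∃ 𝒱 : Set (Set X), (∀ V ∈ 𝒱, IsOpen V) ∧ ⋃₀ 𝒱 = univ ∧ (∀ V ∈ 𝒱, ∃ U ∈ 𝒰, V ⊆ U) ∧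
      ∀ x : X, ∃ N ∈ 𝓝 x, {V ∈ 𝒱 | (V ∩ N).Nonempty}.Countable

theorem result : ∃ (X Y : Type) (_ : TopologicalSpace X) (_ : TopologicalSpace Y) (f : X → Y),
    T3Space X ∧ T3Space Y ∧ Continuous f ∧ Function.Surjective f ∧ IsClosedMap f ∧
    ParaL X ∧ ¬ ParaL Y := by
  have hI : ∀ a : Lib.helper24.Succ.W Cardinal.aleph0, (Iic a).Countable := fun a =>
    Cardinal.le_aleph0_iff_set_countable.1 (Lib.helper24.Succ.card_Iic le_rfl a)
  have hK : ¬ (univ : Set (Lib.helper24.Succ.W Cardinal.aleph0)).Countable := fun h => by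
    obtain ⟨b, hb⟩ := Lib.helper24.Succ.bdd_countable le_rfl _ h
    exact lt_irrefl b (hb b (mem_univ b))
  obtain ⟨k0⟩ : Nonempty (Lib.helper24.Succ.W Cardinal.aleph0) := inferInstance
  refine ⟨H.MP_6bd103.X _, H.MP_6bd103.Y _, inferInstance, inferInstance, H.MP_6bd103.f,
    inferInstance, inferInstance, H.MP_6bd103.f_cont, H.MP_6bd103.f_surj, H.MP_6bd103.f_closed,
    H.MP_6bd103.para hI k0, fun h => H.MP_6bd103.npl hK hI k0 (h _ ?_ ?_)⟩
  · rintro _ ⟨a, rfl⟩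
    exact H.MP_6bd103.U0_open a
  · refine eq_univ_of_forall ?_
    rintro (a | j)
    · exact ⟨_, ⟨a, rfl⟩, fun b h => by cases h; rfl⟩
    · exact ⟨_, ⟨k0, rfl⟩, fun b h => by cases h⟩

end Pool.Agent.Results.MP_6bd103_gt.Closed
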