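import Mathlib

set_option autoImplicit false

open Set Topology Filter

namespace Pool.Agent.Results.MP_6bd103_gt.Perfect

universe u v

/-- every open cover has a locally countable open refinement -/
def ParaL (X : Type u) [TopologicalSpace X] : Prop :=
  ∀ 𝒰 : Set (Set X), (∀ U ∈ 𝒰, IsOpen U) → ⋃₀ 𝒰 = univ →
    ∃ 𝒱 : Set (Set X), (∀ V ∈ 𝒱, IsOpen V) ∧ ⋃₀ 𝒱 = univ ∧ (∀ V ∈ 𝒱, ∃ U ∈ 𝒰, V ⊆ U) ∧
      ∀ x : X, ∃ N ∈ 𝓝 x, {V ∈ 𝒱 | (V ∩ N).Nonempty}.Countable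

lemma push {X : Type u} {Y : Type v} [TopologicalSpace X] [TopologicalSpace Y] {f : X → Y}
    (hc : IsClosedMap f) (hf : ∀ y, IsLindelof (f ⁻¹' {y})) {𝒱 : Set (Set X)}
    (h : ∀ x : X, ∃ N ∈ 𝓝 x, {V ∈ 𝒱 | (V ∩ N).Nonempty}.Countable) (y : Y) :
    ∃ W, IsOpen W ∧ y ∈ W ∧ {V ∈ 𝒱 | (V ∩ f ⁻¹' W).Nonempty}.Countable := by
  choose N hN hNc using h
  obtain ⟨r, hr, hr'⟩ := (hf y).elim_countable_subcover (fun x => interior (N x))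
    (fun _ => isOpen_interior) fun x _ => mem_iUnion.2 ⟨x, mem_interior_iff_mem_nhds.2 (hN x)⟩
  refine ⟨(f '' (⋃ x ∈ r, interior (N x))ᶜ)ᶜ,
    (hc _ (isOpen_biUnion fun _ _ => isOpen_interior).isClosed_compl).isOpen_compl, ?_, ?_⟩
  · rintro ⟨x, hx, e⟩
    exact hx (hr' e)
  · refine (hr.biUnion fun x _ => hNc x).mono ?_
    rintro V ⟨hV, z, hz, hz'⟩
    have : z ∈ ⋃ x ∈ r, interior (N x) := by
      by_contra hn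
      exact hz' ⟨z, hn, rfl⟩
    obtain ⟨x, hx, hzx⟩ := mem_iUnion₂.1 this
    exact mem_iUnion₂.2 ⟨x, hx, hV, z, hz, interior_subset hzx⟩

theorem result (X : Type u) (Y : Type v) [TopologicalSpace X] [TopologicalSpace Y] (f : X → Y)
    (hf : Continuous f) (hs : Function.Surjective f) (hc : IsClosedMap f)
    (hL : ∀ y, IsLindelof (f ⁻¹' {y})) (hX : ParaL X) : ParaL Y := by
  intro 𝒰 hU hcov
  have cov : ∀ 𝒲 : Set (Set Y), ⋃₀ 𝒲 = univ → ⋃₀ ((fun W => f ⁻¹' W) '' 𝒲) = univ := by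
    intro 𝒲 h
    refine eq_univ_of_forall fun x => ?_
    obtain ⟨W, hW, hx⟩ : f x ∈ ⋃₀ 𝒲 := h ▸ mem_univ _
    exact ⟨_, ⟨W, hW, rfl⟩, hx⟩
  obtain ⟨𝒱, -, h2, h3, h4⟩ := hX ((fun W => f ⁻¹' W) '' 𝒰)
    (by rintro _ ⟨W, hW, rfl⟩; exact (hU W hW).preimage hf) (cov 𝒰 hcov)
  choose W hW1 hW2 hW3 using push hc hL h4
  obtain ⟨𝒱', g1, g2, g3, g4⟩ := hX ((fun W => f ⁻¹' W) '' range W)
    (by rintro _ ⟨_, ⟨y, rfl⟩, rfl⟩; exact (hW1 y).preimage hf)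
    (cov _ (eq_univ_of_forall fun y => ⟨_, ⟨y, rfl⟩, hW2 y⟩))
  have h5 : ∀ V : 𝒱, ∃ U ∈ 𝒰, V.1 ⊆ f ⁻¹' U := fun V => by
    obtain ⟨_, ⟨U, hU, rfl⟩, h⟩ := h3 V.1 V.2
    exact ⟨U, hU, h⟩
  choose U hU1 hU2 using h5
  let S : 𝒱 → Set X := fun V => ⋃₀ {V' ∈ 𝒱' | (f '' V' ∩ f '' V.1).Nonempty}
  let E : 𝒱 → Set Y := fun V => U V ∩ (f '' (S V)ᶜ)ᶜ
  refine ⟨range E, ?_, ?_, ?_, ?_⟩
  · rintro _ ⟨V, rfl⟩
    exact (hU _ (hU1 V)).inter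
      (hc _ (isOpen_sUnion fun V' h => g1 V' h.1).isClosed_compl).isOpen_compl
  · refine eq_univ_of_forall fun y => ?_
    obtain ⟨x, rfl⟩ := hs y
    obtain ⟨V, hV, hx⟩ : x ∈ ⋃₀ 𝒱 := h2 ▸ mem_univ _
    refine ⟨_, ⟨⟨V, hV⟩, rfl⟩, hU2 ⟨V, hV⟩ hx, ?_⟩
    rintro ⟨z, hz, e⟩
    obtain ⟨V', hV', hz'⟩ : z ∈ ⋃₀ 𝒱' := g2 ▸ mem_univ _
    exact hz ⟨V', ⟨hV', f x, ⟨z, hz', e⟩, x, hx, rfl⟩, hz'⟩
  · rintro _ ⟨V, rfl⟩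
    exact ⟨U V, hU1 V, inter_subset_left⟩
  · intro y
    obtain ⟨O, hO1, hO2, hO3⟩ := push hc hL g4 y
    refine ⟨O, hO1.mem_nhds hO2, ?_⟩
    have h6 : ∀ V' ∈ {V ∈ 𝒱' | (V ∩ f ⁻¹' O).Nonempty},
        {V : 𝒱 | (f '' V' ∩ f '' V.1).Nonempty}.Countable := by
      intro V' hV'
      obtain ⟨_, ⟨_, ⟨w, rfl⟩, rfl⟩, h⟩ := g3 V' hV'.1
      refine ((hW3 w).preimage Subtype.val_injective).mono ?_
      rintro V ⟨_, ⟨a, ha, rfl⟩, b, hb, e⟩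
      refine ⟨V.2, b, hb, ?_⟩
      rw [mem_preimage, e]
      exact h ha
    refine ((hO3.biUnion h6).image E).mono ?_
    rintro _ ⟨⟨V, rfl⟩, z, hz, hzO⟩
    obtain ⟨x, rfl⟩ := hs z
    have hx : x ∈ S V := by
      by_contra hn
      exact hz.2 ⟨x, hn, rfl⟩
    obtain ⟨V', hV', hx'⟩ := hx
    exact ⟨V, mem_iUnion₂.2 ⟨V', ⟨hV'.1, x, hx', hzO⟩, hV'.2⟩, rfl⟩

end Pool.Agent.Results.MP_6bd103_gt.Perfect
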